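import Pool.Agent.Q102.CD.Num

set_option autoImplicit false

/-!
# Three-term progression-free sets and circuits of constant depth

The circuits read the `n` digits of a number in base `b`. We bound the relative density of
3-AP-free sets in the sets `F` which are decided by circuits of constant depth, and we show that the
extremal 3-AP-free sets are asymptotically uncorrelated with all sets which are decided by circuits of
depth `d` with `exp (c n ^ (1 / (2 d + 2)))` nodes.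

Proof. The numbers which arise from `x` by changing the digits in a block of `m` consecutive places
form an arithmetic progression of length `b ^ m`, and `A` contains at most `r₃(b ^ m)` of them. On the
other hand, most elements of `F` stay in `F` if the digits in some block are changed arbitrarily,
because circuits of constant depth have few points of large sensitivity.
-/

namespace Pool.Agent.Results.MP_0f71ae_nt.ConstantDepthCircuits

open Finset Function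
open Pool.Agent Pool.Agent.Q102.CD

/-- The largest size of a subset of `{1, ..., N}` without three-term progressions. -/
noncomputable def r3 (N : ℕ) : ℕ :=
  sSup {m : ℕ | ∃ A : Finset ℕ, A ⊆ Icc 1 N ∧ APFree A ∧ A.card = m}

/-- `F` is a set of numbers below `b ^ n` which is decided by a circuit of depth at most `d` with at
most `2 ^ ℓ - n` nodes. The leaves of the circuit are arbitrary tests of one digit in base `b`, its
gates are AND and OR gates of any number of wires and arbitrary gates with at most `w` wires,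
negations are free. -/
def Decided (b n w ℓ d : ℕ) (F : Finset ℕ) : Prop :=
  (∀ a ∈ F, a < b ^ n) ∧ ∃ (C : Circuit (ZMod b) w n) (o : C.Node),
    n + Nat.card C.Node ≤ 2 ^ ℓ ∧ (∀ v, C.depth v ≤ d) ∧ ∀ x, num x ∈ F ↔ C.val o x = true

/-- `loss w ℓ d = (d + 1) (2 ^ (d + 10) w ℓ) ^ (d + 1)` -/
def loss (w ℓ d : ℕ) : ℕ := (d + 1) * (2 ^ (d + 10) * (w * ℓ)) ^ (d + 1)

lemma loss_eq (w ℓ d : ℕ) :
    ((loss w ℓ d : ℕ) : ℝ) = ((d + 1 : ℕ) : ℝ) * Y347.CO.KK (d + 1) w ℓ := by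
  rw [loss, Y347.CO.KK, Nat.cast_mul]

lemma r3_bdd (N : ℕ) :
    BddAbove {m : ℕ | ∃ A : Finset ℕ, A ⊆ Icc 1 N ∧ APFree A ∧ A.card = m} := by
  refine ⟨N, ?_⟩
  rintro m ⟨A, hA, -, rfl⟩
  simpa using card_le_card hA

lemma roth_le (N : ℕ) : rothNumberNat N ≤ r3 N := by
  classical
  obtain ⟨T, hT, hc, hfree⟩ := rothNumberNat_spec N
  refine le_csSup (r3_bdd N) ⟨T.image (fun x => x + 1), ?_, ?_, ?_⟩
  · intro x hx
    rw [mem_image] at hx
    obtain ⟨y, hy, rfl⟩ := hx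
    have := mem_range.1 (hT hy)
    rw [mem_Icc]
    omega
  · intro a d hd h0 h1 h2
    rw [mem_image] at h0 h1 h2
    obtain ⟨x, hx, hx'⟩ := h0
    obtain ⟨y, hy, hy'⟩ := h1
    obtain ⟨z, hz, hz'⟩ := h2
    have := hfree (mem_coe.2 hx) (mem_coe.2 hy) (mem_coe.2 hz) (by omega)
    omega
  · rw [card_image_of_injective _ (fun x y h => by simpa using h), hc]

/-- asymptotic estimates -/
lemma asym (b w d : ℕ) (hb : 2 ≤ b) (hw : 1 ≤ w) {c3 C δ : ℝ} (hc3 : 0 < c3) (hC : 0 ≤ C)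
    (hδ : 0 < δ) : ∃ (c : ℝ) (n0 : ℕ), 0 < c ∧ ∀ N n ℓ : ℕ, n0 ≤ n → 1 ≤ ℓ → 1 ≤ N → N < b ^ n →
      b ^ n ≤ b * N → (ℓ : ℝ) ^ (2 * (d + 1)) ≤ c * n →
      (b : ℝ) ^ n * (2 : ℝ) ^ (2 * ℓ + 1 / c3 - c3 * n / loss w ℓ d : ℝ) ≤
        δ * (N * Real.exp (-(C * Real.sqrt (Real.log N)))) := by
  have hb0 : (2 : ℝ) ≤ b := by exact_mod_cast hb
  have hlog2 : 0 < Real.log 2 := Real.log_pos (by norm_num)
  set β : ℝ := Real.sqrt (Real.log b) with hβ
  have hβ0 : 0 ≤ β := Real.sqrt_nonneg _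
  set M : ℝ := C * β / Real.log 2 + 1 with hM
  have hM1 : 1 ≤ M := by
    rw [hM]
    have : 0 ≤ C * β / Real.log 2 := by positivity
    linarith
  set B : ℝ := ((d : ℝ) + 1) * (2 ^ (d + 10) * (w : ℝ)) ^ (d + 1) with hB
  have hw' : (1 : ℝ) ≤ w := by exact_mod_cast hw
  have hB0 : 0 < B := by positivity
  set g : ℝ := min 1 (c3 / (B * (M + 2))) with hg
  have hg0 : 0 < g := lt_min one_pos (by positivity)
  have hg1 : g ≤ 1 := min_le_left _ _
  have hg2 : g * (B * (M + 2)) ≤ c3 := by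
    have h1 : g ≤ c3 / (B * (M + 2)) := min_le_right _ _
    rwa [le_div_iff₀ (by positivity)] at h1
  obtain ⟨s0, hs0⟩ : ∃ s0 : ℕ, (2 : ℝ) ^ (1 / c3) * b / δ ≤ (2 : ℝ) ^ s0 := by
    obtain ⟨s0, hs0⟩ := pow_unbounded_of_one_lt ((2 : ℝ) ^ (1 / c3) * b / δ)
      (by norm_num : (1 : ℝ) < 2)
    exact ⟨s0, hs0.le⟩
  refine ⟨g ^ 2, s0 ^ 2 + 1, by positivity, fun N n ℓ hn hℓ hN1 hN2 hN3 hℓn => ?_⟩
  set s : ℝ := Real.sqrt n with hs
  have hn1 : (1 : ℝ) ≤ n := by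
    have : 1 ≤ n := by omega
    exact_mod_cast this
  have hss : s * s = n := Real.mul_self_sqrt (by linarith)
  have hs1 : 1 ≤ s := by
    rw [hs, Real.one_le_sqrt]
    exact hn1
  have hs0' : (s0 : ℝ) ≤ s := by
    rw [hs]
    apply Real.le_sqrt_of_sq_le
    have : s0 ^ 2 ≤ n := by omega
    exact_mod_cast this
  have hℓ' : (1 : ℝ) ≤ ℓ := by exact_mod_cast hℓ
  have hLp : (ℓ : ℝ) ^ (d + 1) ≤ g * s := by
    refine (pow_le_pow_iff_left₀ (by positivity) (by positivity) (two_ne_zero)).1 ?_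
    calc ((ℓ : ℝ) ^ (d + 1)) ^ 2 = (ℓ : ℝ) ^ (2 * (d + 1)) := by rw [← pow_mul]; ring_nf
      _ ≤ g ^ 2 * n := hℓn
      _ = (g * s) ^ 2 := by rw [mul_pow, sq s, hss]
  have hL1 : (ℓ : ℝ) ≤ g * s := by
    refine le_trans ?_ hLp
    calc (ℓ : ℝ) = (ℓ : ℝ) ^ 1 := (pow_one _).symm
      _ ≤ (ℓ : ℝ) ^ (d + 1) := pow_le_pow_right₀ hℓ' (by omega)
  have hloss : ((loss w ℓ d : ℕ) : ℝ) = B * (ℓ : ℝ) ^ (d + 1) := by
    rw [loss, hB]
    push_cast
    rw [← mul_assoc (2 ^ (d + 10) : ℝ), mul_pow (2 ^ (d + 10) * (w : ℝ))]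
    ring
  have hloss0 : 0 < ((loss w ℓ d : ℕ) : ℝ) := by
    rw [hloss]; positivity
  have hquot : (M + 2) * s ≤ c3 * n / loss w ℓ d := by
    rw [le_div_iff₀ hloss0, hloss]
    calc (M + 2) * s * (B * (ℓ : ℝ) ^ (d + 1)) ≤ (M + 2) * s * (B * (g * s)) := by
          apply mul_le_mul_of_nonneg_left _ (by positivity)
          exact mul_le_mul_of_nonneg_left hLp hB0.le
      _ = g * (B * (M + 2)) * (s * s) := by ring
      _ ≤ c3 * (s * s) := mul_le_mul_of_nonneg_right hg2 (by positivity)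
      _ = c3 * n := by rw [hss]
  have hE : 2 * (ℓ : ℝ) + 1 / c3 - c3 * n / loss w ℓ d ≤ 1 / c3 - s0 - C * β / Real.log 2 * s := by
    have h1 : 2 * (ℓ : ℝ) ≤ 2 * s := by
      have : g * s ≤ 1 * s := mul_le_mul_of_nonneg_right hg1 (by linarith)
      linarith
    have h2 : (M + 2) * s = C * β / Real.log 2 * s + s + 2 * s := by
      rw [hM]; ring
    linarith
  have h2E : (2 : ℝ) ^ (2 * ℓ + 1 / c3 - c3 * n / loss w ℓ d : ℝ) ≤
      (2 : ℝ) ^ (1 / c3) / (2 : ℝ) ^ s0 * Real.exp (-(C * β * s)) := by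
    refine (Real.rpow_le_rpow_of_exponent_le (by norm_num) hE).trans (le_of_eq ?_)
    rw [Real.rpow_sub (by norm_num), Real.rpow_sub (by norm_num), Real.rpow_natCast,
      div_eq_mul_inv _ ((2 : ℝ) ^ (C * β / Real.log 2 * s)), ← Real.rpow_neg (by norm_num)]
    congr 1
    rw [Real.rpow_def_of_pos (by norm_num)]
    congr 1
    field_simp
  have hlogN : Real.log N ≤ n * Real.log b := by
    have h1 : (N : ℝ) ≤ (b : ℝ) ^ n := by exact_mod_cast hN2.le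
    have h0 : (0 : ℝ) < N := by exact_mod_cast hN1
    calc Real.log N ≤ Real.log ((b : ℝ) ^ n) := Real.log_le_log h0 h1
      _ = n * Real.log b := Real.log_pow _ _
  have hsq : Real.sqrt (Real.log N) ≤ β * s := by
    calc Real.sqrt (Real.log N) ≤ Real.sqrt (n * Real.log b) := Real.sqrt_le_sqrt hlogN
      _ = s * β := Real.sqrt_mul (by linarith) _
      _ = β * s := mul_comm _ _
  have hexp : Real.exp (-(C * β * s)) ≤ Real.exp (-(C * Real.sqrt (Real.log N))) := by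
    apply Real.exp_le_exp.2
    have := mul_le_mul_of_nonneg_left hsq hC
    linarith
  have hbN : (b : ℝ) ^ n ≤ b * N := by exact_mod_cast hN3
  have h20 : (0 : ℝ) < (2 : ℝ) ^ s0 := by positivity
  have hK : (2 : ℝ) ^ (1 / c3) / (2 : ℝ) ^ s0 * b ≤ δ := by
    rw [div_le_iff₀ hδ] at hs0
    rw [div_mul_eq_mul_div, div_le_iff₀ h20]
    linarith
  calc (b : ℝ) ^ n * (2 : ℝ) ^ (2 * ℓ + 1 / c3 - c3 * n / loss w ℓ d : ℝ)
      ≤ (b * N) * ((2 : ℝ) ^ (1 / c3) / (2 : ℝ) ^ s0 *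
          Real.exp (-(C * Real.sqrt (Real.log N)))) := by
        apply mul_le_mul hbN _ (by positivity) (by positivity)
        exact h2E.trans (mul_le_mul_of_nonneg_left hexp (by positivity))
    _ = ((2 : ℝ) ^ (1 / c3) / (2 : ℝ) ^ s0 * b) *
          (N * Real.exp (-(C * Real.sqrt (Real.log N)))) := by ring
    _ ≤ δ * (N * Real.exp (-(C * Real.sqrt (Real.log N)))) :=
        mul_le_mul_of_nonneg_right hK (by positivity)

/-- **Theorem.** Let `b ≥ 2` be a base.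
(1) Let `1 ≤ m ≤ n`. For every set `F` decided by a circuit of depth `d` with `2 ^ ℓ - n` nodes which
reads `n` digits, every 3-AP-free set `A` of natural numbers and every `ε > 0`,
`|A ∩ F| ≤ (r₃(b^m) / b^m + ε) |F| + 2 m b^n 2^(2 ℓ + 4 - (ε / 2) ⌊n / m⌋ / loss)`.
(2) For every `δ > 0` there is `c > 0` such that for all `n`, all such `F` and all 3-AP-free `A`,
`|A ∩ F| ≤ δ |F| + b^n 2^(2 ℓ + 1 / c - c n / loss)`.
(3) Let `w ≥ 1`, `d`, `C ≥ 0` and `δ > 0`. There are `c > 0` and `N₀` such that for all `N ≥ N₀`, for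
the number `n` of digits of `N` and all `ℓ ≤ (c n) ^ (1 / (2 d + 2))`, every 3-AP-free set
`A ⊆ {1, ..., N}` with at least `N exp(-C √(log N))` elements and every `F` decided by a circuit of
depth `d` with `2 ^ ℓ - n` nodes satisfy `|A ∩ F| ≤ δ (|A| + |F|)`.
(4) The same holds for every 3-AP-free set `A ⊆ {1, ..., N}` of the maximal size `r₃(N)`. -/
theorem result (b : ℕ) (hb : 2 ≤ b) :
    (∀ n m w ℓ d : ℕ, 1 ≤ w → 1 ≤ ℓ → 1 ≤ m → m ≤ n → ∀ F A : Finset ℕ,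
      Decided b n w ℓ d F → APFree A → ∀ ε : ℝ, 0 < ε →
      ((A ∩ F).card : ℝ) ≤ (r3 (b ^ m) / (b : ℝ) ^ m + ε) * F.card +
        2 * m * ((b : ℝ) ^ n * (2 : ℝ) ^ (2 * ℓ + 4 - ε / 2 * (n / m : ℕ) / loss w ℓ d : ℝ))) ∧
    (∀ δ : ℝ, 0 < δ → ∃ c : ℝ, 0 < c ∧ ∀ n w ℓ d : ℕ, 1 ≤ w → 1 ≤ ℓ → ∀ F A : Finset ℕ,
      Decided b n w ℓ d F → APFree A → ((A ∩ F).card : ℝ) ≤ δ * F.card +
        (b : ℝ) ^ n * (2 : ℝ) ^ (2 * ℓ + 1 / c - c * n / loss w ℓ d : ℝ)) ∧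
    (∀ w d : ℕ, 1 ≤ w → ∀ C δ : ℝ, 0 ≤ C → 0 < δ → ∃ (c : ℝ) (N₀ : ℕ), 0 < c ∧
      ∀ N n ℓ : ℕ, N₀ ≤ N → N < b ^ n → b ^ n ≤ b * N → 1 ≤ ℓ →
      (ℓ : ℝ) ^ (2 * (d + 1)) ≤ c * n → ∀ A F : Finset ℕ, A ⊆ Icc 1 N → APFree A →
      (N : ℝ) * Real.exp (-(C * Real.sqrt (Real.log N))) ≤ A.card → Decided b n w ℓ d F →
      ((A ∩ F).card : ℝ) ≤ δ * (A.card + F.card)) ∧
    (∀ w d : ℕ, 1 ≤ w → ∀ δ : ℝ, 0 < δ → ∃ (c : ℝ) (N₀ : ℕ), 0 < c ∧
      ∀ N n ℓ : ℕ, N₀ ≤ N → N < b ^ n → b ^ n ≤ b * N → 1 ≤ ℓ →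
      (ℓ : ℝ) ^ (2 * (d + 1)) ≤ c * n → ∀ A F : Finset ℕ, A ⊆ Icc 1 N → APFree A →
      A.card = r3 N → Decided b n w ℓ d F →
      ((A ∩ F).card : ℝ) ≤ δ * (A.card + F.card)) := by
  classical
  have hb0 : NeZero b := ⟨by omega⟩
  have hbp : (0 : ℝ) < b := by exact_mod_cast (by omega : 0 < b)
  have h2 : ∀ δ : ℝ, 0 < δ → ∃ c : ℝ, 0 < c ∧ ∀ n w ℓ d : ℕ, 1 ≤ w → 1 ≤ ℓ → ∀ F A : Finset ℕ,
      Decided b n w ℓ d F → APFree A → ((A ∩ F).card : ℝ) ≤ δ * F.card +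
        (b : ℝ) ^ n * (2 : ℝ) ^ (2 * ℓ + 1 / c - c * n / loss w ℓ d : ℝ) := by
    intro δ hδ
    obtain ⟨m, hm, hroth⟩ := roth_small (b := b) hb (δ := δ / 2) (by positivity)
    obtain ⟨c, hc, h⟩ := rel_c (q := b) hm hδ
    refine ⟨c, hc, fun n w ℓ d hw hℓ F A hF hA => ?_⟩
    obtain ⟨hFb, C, o, hs, hd, hCF⟩ := hF
    rw [loss_eq, ← card_words_inter hFb, ← card_words hFb]
    refine h n w ℓ d C hw hℓ hs hd o (words b n F) (words b n A)
      (fun x => by rw [mem_words]; exact hCF x) fun j hj z => ?_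
    have h1 : ((univ.filter fun t : Fin m → ZMod b => glue hm j z t ∈ words b n A).card : ℝ) ≤
        rothNumberNat (b ^ m) := by exact_mod_cast card_slice_num hm hj hA z
    exact h1.trans hroth
  have h3 : ∀ w d : ℕ, 1 ≤ w → ∀ C δ : ℝ, 0 ≤ C → 0 < δ → ∃ (c : ℝ) (N₀ : ℕ), 0 < c ∧
      ∀ N n ℓ : ℕ, N₀ ≤ N → N < b ^ n → b ^ n ≤ b * N → 1 ≤ ℓ →
      (ℓ : ℝ) ^ (2 * (d + 1)) ≤ c * n → ∀ A F : Finset ℕ, A ⊆ Icc 1 N → APFree A →
      (N : ℝ) * Real.exp (-(C * Real.sqrt (Real.log N))) ≤ A.card → Decided b n w ℓ d F →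
      ((A ∩ F).card : ℝ) ≤ δ * (A.card + F.card) := by
    intro w d hw C δ hC hδ
    obtain ⟨c3, hc3, h⟩ := h2 δ hδ
    obtain ⟨c, n0, hc, has⟩ := asym b w d hb hw hc3 hC hδ
    refine ⟨c, b ^ n0, hc, fun N n ℓ hN hN1 hN2 hℓ hℓn A F _ hA hAc hF => ?_⟩
    have hn : n0 ≤ n := by
      by_contra hcon
      push Not at hcon
      have : b ^ n ≤ b ^ n0 := Nat.pow_le_pow_right (by omega) hcon.le
      omega
    have hNpos : 1 ≤ N := by
      have : 0 < b ^ n0 := Nat.pow_pos (by omega)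
      omega
    have h4 := h n w ℓ d hw hℓ F A hF hA
    have h5 := has N n ℓ hn hℓ hNpos hN1 hN2 hℓn
    have h6 := mul_le_mul_of_nonneg_left hAc hδ.le
    linarith
  refine ⟨?_, h2, h3, ?_⟩
  · intro n m w ℓ d hw hℓ hm hmn F A hF hA ε hε
    obtain ⟨hFb, C, o, hs, hd, hCF⟩ := hF
    rw [loss_eq, ← card_words_inter hFb, ← card_words hFb]
    refine rel_blocks C hw hℓ hs hd o (words b n F) (words b n A)
      (fun x => by rw [mem_words]; exact hCF x) hm hmn hε.le ?_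
    intro j hj z
    have h1 : ((univ.filter fun t : Fin m → ZMod b => glue hm j z t ∈ words b n A).card : ℝ) ≤
        r3 (b ^ m) := by exact_mod_cast (card_slice_num hm hj hA z).trans (roth_le _)
    rwa [div_mul_cancel₀ _ (by positivity)]
  · intro w d hw δ hδ
    obtain ⟨c, N₀, hc, h⟩ := h3 w d hw 4 δ (by norm_num) hδ
    refine ⟨c, N₀, hc, fun N n ℓ hN hN1 hN2 hℓ hℓn A F hAs hA hAc hF => ?_⟩
    refine h N n ℓ hN hN1 hN2 hℓ hℓn A F hAs hA ?_ hF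
    rw [hAc]
    have h4 := Behrend.roth_lower_bound (N := N)
    have h5 : (rothNumberNat N : ℝ) ≤ r3 N := by exact_mod_cast roth_le N
    refine le_trans (le_of_eq ?_) (h4.trans h5)
    congr 2
    ring

end Pool.Agent.Results.MP_0f71ae_nt.ConstantDepthCircuits
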