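import Pool.Agent.Q146.SF.Pr

/-!
# Largest progression-free subsets of periodic sets, of divisor-closed sets and of the primes

For `k ≥ 3` let `r k N` be the largest size of a subset of `{1, ..., N}` without arithmetic
progressions of length `k` (`k = 3`: the function `r_3` of the question), and let `rS k S N` be the
largest size of such a set whose elements are in `S`.

* (1) For every `N` outside a set of small logarithmic density one has `rS k S N = (d + o(1)) r k N`
  for ALL periodic sets `S` of density `d`, uniformly in the period `q ≤ exp (c √(log N))`.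
* (2) Let `F` be any set of positive integers that contains the divisors of its elements (the
  integers without divisors in a given set). Then `F` has a logarithmic density `δ` (Davenport,
  Erdős) and `rS k F N = (δ + o(1)) r k N` outside a set of `N` of logarithmic density zero.
* (3) In particular `rS k F N = (6 / π² + o(1)) r k N` for the squarefree numbers.
* (4) For the set of the primes `rS` is at least `(1 - o(1)) r k N / log N` for all `N`, and at
  most `(2 e^(-γ) + o(1)) r k N / log log N` outside a set of `N` of logarithmic density zero.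
-/

set_option autoImplicit false

open Finset Filter Topology

namespace Pool.Agent.Results.MP_0f71ae_nt.PeriodicAndDivisorClosedSets

open Pool.Agent.H617R3.AP

open Classical in
/-- The largest size of a subset of `S ∩ {1, ..., N}` without arithmetic progressions of length
`k`. -/
noncomputable def rS (k : ℕ) (S : Set ℕ) (N : ℕ) : ℕ :=
  ((Icc 1 N).powerset.filter (fun A => APFree k A ∧ ∀ n ∈ A, n ∈ S)).sup card

open Classical in
/-- The set `S` has the logarithmic density `d`. -/
def HasLogDensity (S : Set ℕ) (d : ℝ) : Prop :=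
  Tendsto (fun x : ℕ => (∑ n ∈ (Icc 1 x).filter (fun n => n ∈ S), (1 : ℝ) / n) / Real.log x)
    atTop (𝓝 d)

theorem neg_density {E : Set ℕ} (h : Q146.SF.Neg E) : HasLogDensity E 0 := by
  classical
  refine h.tendsto.congr fun x => ?_
  rw [Q146.SF.mass_eq]

open Classical in
/-- **Theorem.** Let `k ≥ 3`.
(1) Periodic sets: for every `ε > 0` there are `c > 0`, `C` and a set `E` of positive integers with
`∑_(N ∈ E, N ≤ x) 1 / N ≤ ε log x + C`, such that for all `N ∉ E`, all `q ≤ exp (c √(log N))` and
all sets `B` of residues modulo `q`, the largest progression-free subset of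
`{n ≤ N : n mod q ∈ B}` has `(1 ± ε) (|B| / q) r k N` elements.
(2) Divisor-closed sets: let `F` contain all divisors of its elements. Then `F` has a logarithmic
density `δ`, and for every `ε > 0` the set of all `N` with `|rS k F N - δ r k N| > ε r k N` has
logarithmic density zero.
(3) For the squarefree numbers this holds with `δ = 6 / π²`.
(4) Primes: `rS k` is at least `(1 - ε) r k N / log N` for all large `N`, and for every `ε > 0` the
set of all `N` for which it is larger than `(2 e^(-γ) + ε) r k N / log log N` has logarithmic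
density zero (`γ` is the constant of Euler and Mascheroni). -/
theorem result (k : ℕ) (hk : 3 ≤ k) :
    (∀ ε : ℝ, 0 < ε → ε ≤ 1 → ∃ (c C : ℝ) (E : Set ℕ), 0 < c ∧
      (∀ x : ℕ, 1 ≤ x → ∑ N ∈ (Icc 1 x).filter (fun N => N ∈ E), (1 : ℝ) / N ≤
        ε * Real.log x + C) ∧
      ∀ N : ℕ, 1 ≤ N → N ∉ E → ∀ q : ℕ, 1 ≤ q → (q : ℝ) ≤ Real.exp (c * √(Real.log N)) →
        ∀ B : Finset ℕ, B ⊆ range q →
          |(rS k {n | n % q ∈ B} N : ℝ) - #B / q * r k N| ≤ ε * (#B / q * r k N)) ∧
    (∀ F : Set ℕ, (∀ n ∈ F, ∀ m, m ∣ n → m ∈ F) → ∃ δ : ℝ, 0 ≤ δ ∧ δ ≤ 1 ∧ HasLogDensity F δ ∧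
      ∀ ε : ℝ, 0 < ε → HasLogDensity {N | ε * r k N < |(rS k F N : ℝ) - δ * r k N|} 0) ∧
    (∀ ε : ℝ, 0 < ε → HasLogDensity
      {N | ε * r k N < |(rS k {n | Squarefree n} N : ℝ) - 6 / Real.pi ^ 2 * r k N|} 0) ∧
    ((∀ ε : ℝ, 0 < ε → ∃ N₀ : ℕ, ∀ N : ℕ, N₀ ≤ N →
        (1 - ε) * (r k N / Real.log N) ≤ rS k {p | p.Prime} N) ∧
      ∀ ε : ℝ, 0 < ε → HasLogDensity
        {N | (2 * Real.exp (-Real.eulerMascheroniConstant) + ε) *
          (r k N / Real.log (Real.log N)) < rS k {p | p.Prime} N} 0) := by
  refine ⟨?_, ?_, ?_, ⟨?_, ?_⟩⟩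
  · intro ε h0 h1
    obtain ⟨c, C, E, hc, hE, h⟩ := Q146.SF.periodic hk h0 h1
    refine ⟨c, C, E, hc, fun x hx => ?_, h⟩
    have h2 := hE x hx
    rwa [Q146.SF.mass_eq] at h2
  · intro F hF
    refine ⟨Q146.SF.dd F, Q146.SF.dd_nonneg F, Q146.SF.dd_le_one F, ?_, ?_⟩
    · refine (Q146.SF.log_density hF).congr fun x => ?_
      rw [Q146.SF.mass_eq]
    · intro ε hε
      exact neg_density (Q146.SF.closed_main hk hF hε)
  · intro ε hε
    have h1 := Q146.SF.closed_main hk (F := {n | Squarefree n})
      (fun n hn m hm => Squarefree.squarefree_of_dvd hm hn) hε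
    rw [Q146.SF.dd_squarefree] at h1
    exact neg_density h1
  · intro ε hε
    exact Q146.SF.primes_lower hk hε
  · intro ε hε
    exact neg_density (Q146.SF.primes_upper hk hε)

end Pool.Agent.Results.MP_0f71ae_nt.PeriodicAndDivisorClosedSets
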