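import Pool.Agent.Q146.SF.Uni

/-!
# Sparse sets that contain asymptotically largest progression-free sets for all `N`

For `k ≥ 3` let `r k N` be the largest size of a subset of `{1, ..., N}` without arithmetic
progressions of length `k` (`k = 3`: the function `r_3` of the question), and let `rS k S N` be the
largest size of such a set whose elements are in `S`. A set `S` with `rS k S N ~ r k N` has at least
`(1 - o(1)) r k N` elements up to `N`; we show that this bound is sharp up to a factor that tends
to infinity arbitrarily slowly, for one fixed set `S` and all `N`.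

* (1) For every `f` that tends to infinity there is a set `S` of positive integers with at most
  `f N * r k N` elements up to `N`, for all large `N`, and `rS k S N / r k N → 1`.
* (2) For every `η > 0` there are a set `S` and a number `C` such that for all `N ≥ 1` the set `S`
  has at most `C r k N` elements up to `N` and `rS k S N ≥ (1 - η) r k N`.
-/

set_option autoImplicit false

open Finset Filter Topology

namespace Pool.Agent.Results.MP_0f71ae_nt.ThinUniversalSets

open Pool.Agent.H617R3.AP

open Classical in
/-- The largest size of a subset of `S ∩ {1, ..., N}` without arithmetic progressions of length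
`k`. -/
noncomputable def rS (k : ℕ) (S : Set ℕ) (N : ℕ) : ℕ :=
  ((Icc 1 N).powerset.filter (fun A => APFree k A ∧ ∀ n ∈ A, n ∈ S)).sup card

open Classical in
/-- **Theorem.** Let `k ≥ 3`.
(1) For every function `f` that tends to infinity there is a set `S` such that `S` has at most
`f N * r k N` elements up to `N` for all large `N`, and `rS k S N / r k N` tends to `1`.
(2) For every `η > 0` there are a set `S` and a number `C` such that for all `N ≥ 1` the set `S` has
at most `C r k N` elements up to `N` and `rS k S N ≥ (1 - η) r k N`. -/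
theorem result (k : ℕ) (hk : 3 ≤ k) :
    (∀ f : ℕ → ℝ, Tendsto f atTop atTop → ∃ S : Set ℕ,
      (∀ᶠ N : ℕ in atTop, (#((Icc 1 N).filter fun n => n ∈ S) : ℝ) ≤ f N * r k N) ∧
      Tendsto (fun N : ℕ => (rS k S N : ℝ) / r k N) atTop (𝓝 1)) ∧
    (∀ η : ℝ, 0 < η → ∃ (S : Set ℕ) (C : ℝ), ∀ N : ℕ, 1 ≤ N →
      (#((Icc 1 N).filter fun n => n ∈ S) : ℝ) ≤ C * r k N ∧
        (1 - η) * r k N ≤ rS k S N) := by
  refine ⟨?_, ?_⟩
  · intro f hf
    obtain ⟨S, h1, h2⟩ := Q146.SF.universal hk hf
    refine ⟨S, ?_, h2⟩
    filter_upwards [h1] with N hN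
    rwa [Q146.SF.cnt_eq_card] at hN
  · intro η hη
    obtain ⟨S, C, h⟩ := Q146.SF.thin hk hη
    refine ⟨S, C, fun N hN => ?_⟩
    obtain ⟨h1, h2⟩ := h N hN
    refine ⟨?_, h2⟩
    rwa [Q146.SF.cnt_eq_card] at h1

end Pool.Agent.Results.MP_0f71ae_nt.ThinUniversalSets
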