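import Pool.Agent.Q102.VC.Haussler
import Pool.Agent.Q102.VC.Beh
import Pool.Agent.Q102.VC.Sphere
import Pool.Agent.Q102.VC.Sidon

set_option autoImplicit false

/-!
# The translates of large 3-AP-free sets shatter large sets

For a 3-AP-free set `A ⊆ {1, ..., N}` with at least `N exp(-C √(log N))` elements there is a set `Z`
of about `√(log N) / C` integers such that every subset of `Z` is the trace `Z ∩ (A + t)` of a
translate of `A`; this is sharp up to the constant. In particular the extremal sets for `r₃(N)` have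
Vapnik-Chervonenkis dimension at least `0.47 √(log N)`. A 3-AP-free set of Vapnik-Chervonenkis
dimension `D` has at most `44 N ^ (1 - 1 / D)` elements, which is sharp for `D = 2`.

Proof. `A ∩ (A + d)` and `A ∩ (A - d)` are disjoint, so any two translates of `A` differ in at least
`|A|` elements. Apply Haussler's packing lemma to `N` translates. For the sharpness: the traces of
translates of Behrend's set, which is the image of a piece of a sphere in dimension `√(log N)`, are
given by hyperplanes and boxes.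
-/

namespace Pool.Agent.Results.MP_0f71ae_nt.TranslatesShatter

open Finset
open Pool.Agent.Q102.VC

/-- `A` contains no three terms `a`, `a + d`, `a + 2 * d` with `d ≥ 1`. -/
def APFree (A : Finset ℤ) : Prop :=
  ∀ a d : ℤ, 1 ≤ d → a ∈ A → a + d ∈ A → a + 2 * d ∉ A

/-- The largest size of a subset of `{1, ..., N}` without three-term progressions. -/
noncomputable def r3 (N : ℕ) : ℕ :=
  sSup {m : ℕ | ∃ A : Finset ℤ, A ⊆ Icc 1 (N : ℤ) ∧ APFree A ∧ A.card = m}

/-- `Z` is shattered by the translates `A + t` with `t ∈ T`: for every `B ⊆ Z` there is `t ∈ T` with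
`Z ∩ (A + t) = B`. -/
def Shattered (T : Set ℤ) (A Z : Finset ℤ) : Prop :=
  ∀ B ⊆ Z, ∃ t ∈ T, ∀ x ∈ Z, x ∈ B ↔ x - t ∈ A

lemma roth_le (N : ℕ) : rothNumberNat N ≤ r3 N := by
  classical
  obtain ⟨T, hT, hc, hfree⟩ := rothNumberNat_spec N
  have hbdd : BddAbove {m : ℕ | ∃ A : Finset ℤ, A ⊆ Icc 1 (N : ℤ) ∧ APFree A ∧ A.card = m} := by
    refine ⟨N, ?_⟩
    rintro m ⟨A, hA, -, rfl⟩
    simpa using card_le_card hA
  refine le_csSup hbdd ⟨T.image (fun x : ℕ => (x : ℤ) + 1), ?_, ?_, ?_⟩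
  · intro x hx
    rw [mem_image] at hx
    obtain ⟨y, hy, rfl⟩ := hx
    have := mem_range.1 (hT hy)
    rw [mem_Icc]
    omega
  · intro a d hd h0 h1 h2
    rw [mem_image] at h0 h1 h2
    obtain ⟨x, hx, hx'⟩ := h0
    obtain ⟨y, hy, hy'⟩ := h1
    obtain ⟨z, hz, hz'⟩ := h2
    have := hfree (mem_coe.2 hx) (mem_coe.2 hy) (mem_coe.2 hz) (by omega)
    omega
  · rw [card_image_of_injective _ (fun x y h => by simpa using h), hc]

/-- two translates of a 3-AP-free set are far apart -/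
lemma far_aux {A : Finset ℤ} {N : ℕ} (hAN : A ⊆ Icc 1 (N : ℤ)) (hA : APFree A) {t t' : ℤ}
    (h0 : 0 ≤ t) (ht : t < t') (ht' : t' < N) : A.card ≤ ((Icc 1 (2 * (N : ℤ))).filter fun x =>
      ¬ (x ∈ A.image (fun a => a + t) ↔ x ∈ A.image (fun a => a + t'))).card := by
  classical
  set d := t' - t with hd
  have hd1 : 1 ≤ d := by omega
  set A1 := A.filter fun a => ∃ a' ∈ A, a' + d = a with hA1
  set A2 := A.filter fun a => a + d ∈ A with hA2
  have hdisj : Disjoint A1 A2 := by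
    rw [disjoint_left]
    intro a h1 h2
    obtain ⟨h3, a', ha', h4⟩ := mem_filter.1 h1
    have h5 := (mem_filter.1 h2).2
    refine hA a' d hd1 ha' (by rw [h4]; exact h3) ?_
    have : a' + 2 * d = a + d := by omega
    rw [this]; exact h5
  have h12 : A1.card + A2.card ≤ A.card := by
    rw [← card_union_of_disjoint hdisj]
    exact card_le_card (union_subset (filter_subset _ _) (filter_subset _ _))
  set L := (A.filter fun a => ¬ ∃ a' ∈ A, a' + d = a).image (fun a => a + t) with hL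
  set R := (A.filter fun a => ¬ a + d ∈ A).image (fun a => a + t') with hR
  have hLc : L.card + A1.card = A.card := by
    rw [hL, card_image_of_injective _ (add_left_injective t), add_comm]
    exact card_filter_add_card_filter_not _
  have hRc : R.card + A2.card = A.card := by
    rw [hR, card_image_of_injective _ (add_left_injective t'), add_comm]
    exact card_filter_add_card_filter_not _
  have hLR : Disjoint L R := by
    rw [disjoint_left]
    intro x h1 h2
    obtain ⟨a, ha, rfl⟩ := mem_image.1 h1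
    obtain ⟨b, hb, hab⟩ := mem_image.1 h2
    refine (mem_filter.1 ha).2 ⟨b, (mem_filter.1 hb).1, ?_⟩
    have hab' : b + t' = a + t := hab
    omega
  have hsub : L ∪ R ⊆ (Icc 1 (2 * (N : ℤ))).filter fun x =>
      ¬ (x ∈ A.image (fun a => a + t) ↔ x ∈ A.image (fun a => a + t')) := by
    intro x hx
    rw [mem_filter, mem_Icc]
    rcases mem_union.1 hx with h | h
    · obtain ⟨a, ha, rfl⟩ := mem_image.1 h
      obtain ⟨ha1, ha2⟩ := mem_filter.1 ha
      have := mem_Icc.1 (hAN ha1)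
      refine ⟨by omega, fun hiff => ?_⟩
      obtain ⟨b, hb, hab⟩ := mem_image.1 (hiff.1 (mem_image_of_mem _ ha1))
      refine ha2 ⟨b, hb, ?_⟩
      have hab' : b + t' = a + t := hab
      omega
    · obtain ⟨a, ha, rfl⟩ := mem_image.1 h
      obtain ⟨ha1, ha2⟩ := mem_filter.1 ha
      have := mem_Icc.1 (hAN ha1)
      refine ⟨by omega, fun hiff => ?_⟩
      obtain ⟨b, hb, hab⟩ := mem_image.1 (hiff.2 (mem_image_of_mem _ ha1))
      apply ha2
      have hab' : b + t = a + t' := hab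
      have : a + d = b := by omega
      rw [this]; exact hb
  have h := card_le_card hsub
  rw [card_union_of_disjoint hLR] at h
  omega

lemma far {A : Finset ℤ} {N : ℕ} (hAN : A ⊆ Icc 1 (N : ℤ)) (hA : APFree A) {t t' : ℤ}
    (h0 : 0 ≤ t) (h0' : 0 ≤ t') (ht : t < N) (ht' : t' < N) (hne : t ≠ t') :
    A.card ≤ ((Icc 1 (2 * (N : ℤ))).filter fun x =>
      ¬ (x ∈ A.image (fun a => a + t) ↔ x ∈ A.image (fun a => a + t'))).card := by
  rcases lt_or_gt_of_ne hne with h | h
  · exact far_aux hAN hA h0 h ht'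
  · have := far_aux hAN hA h0' h ht
    refine this.trans (le_of_eq ?_)
    congr 1
    apply filter_congr
    intro x _
    exact not_congr ⟨Iff.symm, Iff.symm⟩

/-- the packing inequality -/
lemma packing {A : Finset ℤ} {N D : ℕ} (hAN : A ⊆ Icc 1 (N : ℤ)) (hA : APFree A)
    (hne : A.Nonempty) (hD1 : 1 ≤ D)
    (hD : ∀ Z : Finset ℤ, Shattered {t | 0 ≤ t ∧ t < N} A Z → Z.card ≤ D) :
    (N : ℝ) ≤ 2 * (8 * Real.exp 1 * (N / A.card)) ^ D := by
  classical
  have hAc : 0 < A.card := card_pos.2 hne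
  have hAN' : A.card ≤ N := by simpa using card_le_card hAN
  have hAc' : (0 : ℝ) < A.card := by exact_mod_cast hAc
  have hW : (Icc 1 (2 * (N : ℤ))).card = 2 * N := by
    rw [Int.card_Icc]
    omega
  have h := haussler_real (Ico 0 (N : ℤ)) (fun t => A.image fun a => a + t) (Icc 1 (2 * (N : ℤ))) D
    A.card hAc' (by rw [hW]; exact_mod_cast (by omega : A.card ≤ 2 * N)) (by
      intro t ht t' ht' hne
      rw [mem_Ico] at ht ht'
      exact_mod_cast far hAN hA ht.1 ht'.1 ht.2 ht'.2 hne) hD1 (by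
      intro Z hZ
      apply hD
      intro B hB
      obtain ⟨t, ht, htB⟩ := hZ B hB
      rw [mem_Ico] at ht
      refine ⟨t, ht, fun x hx => ?_⟩
      rw [← htB, mem_tr, mem_image]
      constructor
      · rintro ⟨_, a, ha, hax⟩
        have : x - t = a := by
          have hax' : a + t = x := hax
          omega
        rw [this]; exact ha
      · intro hxt
        exact ⟨hx, x - t, hxt, by ring⟩)
  have hI : (Ico 0 (N : ℤ)).card = N := by simp
  rw [hI, hW] at h
  refine h.trans (le_of_eq ?_)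
  push_cast
  congr 2
  ring

/-- sets of bounded dimension -/
lemma bounded {A : Finset ℤ} {N D : ℕ} (hAN : A ⊆ Icc 1 (N : ℤ)) (hA : APFree A) (hD1 : 1 ≤ D)
    (hD : ∀ Z : Finset ℤ, Shattered {t | 0 ≤ t ∧ t < N} A Z → Z.card ≤ D) :
    (A.card : ℝ) ≤ 44 * (N : ℝ) ^ (1 - 1 / (D : ℝ)) := by
  rcases A.eq_empty_or_nonempty with hA0 | hne
  · rw [hA0, card_empty]
    push_cast
    positivity
  have h := packing hAN hA hne hD1 hD
  have hAc : (0 : ℝ) < A.card := by exact_mod_cast card_pos.2 hne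
  have hAN' : A.card ≤ N := by simpa using card_le_card hAN
  have hN0 : (0 : ℝ) < N := by
    have : 0 < A.card := card_pos.2 hne
    exact_mod_cast (by omega : 0 < N)
  have hD' : (0 : ℝ) < D := by exact_mod_cast hD1
  have hX : 0 ≤ 8 * Real.exp 1 * (N / (A.card : ℝ)) := by positivity
  have h1 : (N : ℝ) ≤ (2 * (8 * Real.exp 1 * (N / A.card))) ^ D := by
    refine h.trans ?_
    rw [mul_pow 2]
    apply mul_le_mul_of_nonneg_right _ (by positivity)
    calc (2 : ℝ) = 2 ^ 1 := by norm_num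
      _ ≤ 2 ^ D := pow_le_pow_right₀ (by norm_num) hD1
  have h2 : (N : ℝ) ^ (1 / (D : ℝ)) ≤ 2 * (8 * Real.exp 1 * (N / A.card)) := by
    have h3 := Real.rpow_le_rpow hN0.le h1 (show 0 ≤ 1 / (D : ℝ) by positivity)
    rw [← Real.rpow_natCast, ← Real.rpow_mul (by positivity), mul_one_div_cancel hD'.ne',
      Real.rpow_one] at h3
    exact h3
  have h4 : (N : ℝ) ^ (1 / (D : ℝ)) * A.card ≤ 44 * N := by
    have h5 := mul_le_mul_of_nonneg_right h2 hAc.le
    have e : 2 * (8 * Real.exp 1 * (N / (A.card : ℝ))) * A.card = 16 * Real.exp 1 * N := by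
      field_simp
      ring
    rw [e] at h5
    have := Real.exp_one_lt_d9
    nlinarith
  have h6 : (N : ℝ) ^ (1 - 1 / (D : ℝ)) = N / (N : ℝ) ^ (1 / (D : ℝ)) := by
    rw [Real.rpow_sub hN0, Real.rpow_one]
  rw [h6, ← mul_div_assoc, le_div_iff₀ (by positivity), mul_comm]
  exact h4

/-- large sets shatter -/
lemma large {C ε : ℝ} (hC : 0 ≤ C) (hε : 0 < ε) : ∃ N₀ : ℕ, ∀ N : ℕ, N₀ ≤ N → ∀ A : Finset ℤ,
    A ⊆ Icc 1 (N : ℤ) → APFree A → (N : ℝ) * Real.exp (-(C * Real.sqrt (Real.log N))) ≤ A.card →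
    ∃ Z : Finset ℤ, Real.sqrt (Real.log N) / (C + ε) ≤ Z.card ∧
      Shattered {t | 0 ≤ t ∧ t < N} A Z := by
  classical
  obtain ⟨N₀, hN₀⟩ : ∃ N₀ : ℕ, Real.exp ((C + ε + 4 / ε + 1) ^ 2) ≤ N₀ := exists_nat_ge _
  refine ⟨N₀, fun N hN A hAN hA hAc => ?_⟩
  by_contra hcon
  push Not at hcon
  have hNe : Real.exp ((C + ε + 4 / ε + 1) ^ 2) ≤ N := hN₀.trans (by exact_mod_cast hN)
  have hNpos : (0 : ℝ) < N := lt_of_lt_of_le (Real.exp_pos _) hNe
  set L := Real.sqrt (Real.log N) with hL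
  have hlogN : (C + ε + 4 / ε + 1) ^ 2 ≤ Real.log N := by
    rw [Real.le_log_iff_exp_le hNpos]; exact hNe
  have hLL : L * L = Real.log N := Real.mul_self_sqrt ((sq_nonneg _).trans hlogN)
  have h4 : 0 < 4 / ε := by positivity
  have hL1 : C + ε + 4 / ε + 1 ≤ L := by
    rw [hL]
    exact Real.le_sqrt_of_sq_le hlogN
  have hL0 : 0 < L := by linarith
  have hApos : (0 : ℝ) < A.card := lt_of_lt_of_le (by positivity) hAc
  have hne : A.Nonempty := card_pos.1 (by exact_mod_cast hApos)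
  set y := L / (C + ε) with hy
  have hy1 : 1 ≤ y := by
    rw [hy, one_le_div (by positivity)]
    linarith
  have hD1 : 1 ≤ ⌊y⌋₊ := Nat.le_floor (by exact_mod_cast hy1)
  have hD : ∀ Z : Finset ℤ, Shattered {t | 0 ≤ t ∧ t < N} A Z → Z.card ≤ ⌊y⌋₊ := by
    intro Z hZ
    apply Nat.le_floor
    by_contra h
    push Not at h
    exact hcon Z h.le hZ
  have h1 := packing hAN hA hne hD1 hD
  have h2 : (N : ℝ) / A.card ≤ Real.exp (C * L) := by
    rw [div_le_iff₀ hApos]
    have := mul_le_mul_of_nonneg_left hAc (Real.exp_pos (C * L)).le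
    refine le_trans (le_of_eq ?_) this
    rw [mul_comm (N : ℝ), ← mul_assoc, ← Real.exp_add, add_neg_cancel, Real.exp_zero, one_mul]
  have h8 : 2 * (8 * Real.exp 1 * (N / (A.card : ℝ))) ≤ Real.exp (4 + C * L) := by
    rw [Real.exp_add]
    have h9 : 2 * (8 * Real.exp 1 * (N / (A.card : ℝ))) ≤ (16 * Real.exp 1) * Real.exp (C * L) := by
      have := mul_le_mul_of_nonneg_left h2 (show 0 ≤ 16 * Real.exp 1 by positivity)
      linarith
    refine h9.trans (mul_le_mul_of_nonneg_right ?_ (Real.exp_pos _).le)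
    have h10 := Real.exp_one_lt_d9
    have h11 := Real.exp_one_gt_d9
    have h12 : Real.exp 4 = Real.exp 1 ^ 4 := by
      rw [← Real.exp_nat_mul]; norm_num
    rw [h12]
    calc 16 * Real.exp 1 ≤ 16 * 2.7182818286 := by linarith
      _ ≤ 2.7182818283 ^ 4 := by norm_num
      _ ≤ Real.exp 1 ^ 4 := pow_le_pow_left₀ (by norm_num) h11.le 4
  have h5 : (N : ℝ) ≤ Real.exp (4 + C * L) ^ ⌊y⌋₊ := by
    refine h1.trans ?_
    refine le_trans ?_ (pow_le_pow_left₀ (by positivity) h8 _)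
    rw [mul_pow 2]
    apply mul_le_mul_of_nonneg_right _ (by positivity)
    calc (2 : ℝ) = 2 ^ 1 := by norm_num
      _ ≤ 2 ^ ⌊y⌋₊ := pow_le_pow_right₀ (by norm_num) hD1
  have h6 : Real.log N ≤ y * (4 + C * L) := by
    have h7 := Real.log_le_log hNpos h5
    rw [Real.log_pow, Real.log_exp] at h7
    refine h7.trans (mul_le_mul_of_nonneg_right (Nat.floor_le (by linarith)) ?_)
    positivity
  have h12 : y * (4 + C * L) < y * ((C + ε) * L) := by
    apply mul_lt_mul_of_pos_left _ (by linarith)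
    have h13 : 4 / ε < L := by linarith
    rw [div_lt_iff₀ hε] at h13
    linarith
  have h13 : y * ((C + ε) * L) = L * L := by
    rw [hy]
    field_simp
  rw [h13, hLL] at h12
  linarith

/-- **Theorem.**
(1) Let `D ≥ 1` and let `A ⊆ {1, ..., N}` be 3-AP-free. If every set which is shattered by the
translates `A + t`, `0 ≤ t < N`, has at most `D` elements then `|A| ≤ 44 N ^ (1 - 1 / D)`.
(2) This is sharp for `D = 2`: for every `N ≥ 1` there is a 3-AP-free `A ⊆ {1, ..., N}` with at least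
`√N / 6` elements such that all the sets shattered by the integer translates of `A` have at most two
elements.
(3) For all `C ≥ 0` and `ε > 0` and all large `N`, the translates `A + t`, `0 ≤ t < N`, of every
3-AP-free set `A ⊆ {1, ..., N}` with at least `N exp(-C √(log N))` elements shatter a set of at least
`√(log N) / (C + ε)` integers.
(4) This is sharp up to the constants: for every `N ≥ 4096` there is a 3-AP-free set
`A ⊆ {1, ..., N}` with at least `N exp(-4 √(log N))` elements such that all the sets shattered by the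
integer translates of `A` have at most `3 √(log N) + 4` elements.
(5) For all large `N`, the translates `A + t`, `0 ≤ t < N`, of every 3-AP-free `A ⊆ {1, ..., N}` with
`r₃(N)` elements shatter a set of at least `0.47 √(log N)` integers. -/
theorem result :
    (∀ (N D : ℕ) (A : Finset ℤ), 1 ≤ D → A ⊆ Icc 1 (N : ℤ) → APFree A →
      (∀ Z : Finset ℤ, Shattered {t | 0 ≤ t ∧ t < N} A Z → Z.card ≤ D) →
      (A.card : ℝ) ≤ 44 * (N : ℝ) ^ (1 - 1 / (D : ℝ))) ∧
    (∀ N : ℕ, 1 ≤ N → ∃ A : Finset ℤ, A ⊆ Icc 1 (N : ℤ) ∧ APFree A ∧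
      Real.sqrt N / 6 ≤ A.card ∧ ∀ Z : Finset ℤ, Shattered Set.univ A Z → Z.card ≤ 2) ∧
    (∀ C ε : ℝ, 0 ≤ C → 0 < ε → ∃ N₀ : ℕ, ∀ N : ℕ, N₀ ≤ N → ∀ A : Finset ℤ,
      A ⊆ Icc 1 (N : ℤ) → APFree A →
      (N : ℝ) * Real.exp (-(C * Real.sqrt (Real.log N))) ≤ A.card →
      ∃ Z : Finset ℤ, Real.sqrt (Real.log N) / (C + ε) ≤ Z.card ∧
        Shattered {t | 0 ≤ t ∧ t < N} A Z) ∧
    (∀ N : ℕ, 4096 ≤ N → ∃ A : Finset ℤ, A ⊆ Icc 1 (N : ℤ) ∧ APFree A ∧
      (N : ℝ) * Real.exp (-(4 * Real.sqrt (Real.log N))) ≤ A.card ∧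
      ∀ Z : Finset ℤ, Shattered Set.univ A Z → (Z.card : ℝ) ≤ 3 * Real.sqrt (Real.log N) + 4) ∧
    (∃ N₀ : ℕ, ∀ N : ℕ, N₀ ≤ N → ∀ A : Finset ℤ, A ⊆ Icc 1 (N : ℤ) → APFree A → A.card = r3 N →
      ∃ Z : Finset ℤ, 0.47 * Real.sqrt (Real.log N) ≤ Z.card ∧
        Shattered {t | 0 ≤ t ∧ t < N} A Z) := by
  refine ⟨fun N D A h1 h2 h3 h4 => bounded h2 h3 h1 h4, ?_, fun C ε hC hε => large hC hε, ?_, ?_⟩
  · intro N hN
    obtain ⟨A, hAN, hA, hc⟩ := exists_sidon N hN
    refine ⟨A, hAN, fun a d hd h0 h1 h2 => sidon_free hA hd h0 h1 h2, by linarith, fun Z hZ => ?_⟩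
    apply sidon_vc hA
    intro B hB
    obtain ⟨t, -, ht⟩ := hZ B hB
    exact ⟨t, ht⟩
  · intro N hN
    obtain ⟨n, d, k, hn, hle, hn', hc⟩ := exists_beh N hN
    refine ⟨beh n d k, beh_sub.trans (Icc_subset_Icc le_rfl (by exact_mod_cast hle)),
      fun a δ hδ h0 h1 h2 => beh_free hδ h0 h1 h2, hc, fun Z hZ => ?_⟩
    have h := beh_vc hn Z (fun B hB => by
      obtain ⟨t, -, ht⟩ := hZ B hB
      exact ⟨t, ht⟩)
    have h' : (Z.card : ℝ) ≤ 3 * n + 1 := by exact_mod_cast h
    linarith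
  · obtain ⟨N₁, h1⟩ := large (C := 2.1243) (ε := 0.003) (by norm_num) (by norm_num)
    obtain ⟨N₂, h2⟩ := roth_lower
    refine ⟨max N₁ N₂, fun N hN A hAN hA hAc => ?_⟩
    have h3 : (rothNumberNat N : ℝ) ≤ A.card := by
      rw [hAc]
      exact_mod_cast roth_le N
    obtain ⟨Z, hZ, hZs⟩ := h1 N ((le_max_left _ _).trans hN) A hAN hA
      ((h2 N ((le_max_right _ _).trans hN)).trans h3)
    refine ⟨Z, le_trans ?_ hZ, hZs⟩
    rw [le_div_iff₀ (by norm_num)]
    have := Real.sqrt_nonneg (Real.log N)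
    nlinarith

end Pool.Agent.Results.MP_0f71ae_nt.TranslatesShatter
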